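import Pool.Agent.H37.CNT.Stmts

/-!
# Denominators of conductors: quotients by normal subgroups of order prime to `p`: statements of the rows
of the board `cnq`

Row `XXX` is a theorem `xxx_thm (h1 : S_AAA) ... : S_XXX` in `Pool/Agent/H<k>/CNQ/XXX.lean`, importing this
file, namespace `Pool.CND`.
-/

set_option autoImplicit false

namespace Pool.CND

open Finset

/-- EXS: extension of a place to a finite separable extension (`k` algebraically closed): integral closure of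
the valuation ring (as `EXI`, file `Pool/Agent/H1/CNP/EXI.lean`) -/
def S_EXS : Prop := ∀ (k L : Type) [Field k] [IsAlgClosed k] [Field L] [Algebra k L]
  (E : IntermediateField k L) (Q : Place k E), Module.Finite E L → Algebra.IsSeparable E L →
  ∃ (P : Place k L) (e : ℕ), 1 ≤ e ∧ ∀ z : E, z ≠ 0 → (e : ℤ) * Q.ord z = P.ord (z : L)

/-- TRV: transitivity.  Otherwise `WAP` gives `a` with `P'.ord a = 1`, of order `0` at all `c P` and at the `c P' ≠ P'`;
its norm over `C` has positive order at `P'` and order `0` at `P` -/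
def S_TRV : Prop := ∀ (k L G : Type) [Field k] [Field L] [Algebra k L] [Group G] [Finite G]
  (ρ : G →* (L ≃ₐ[k] L)) (C : Subgroup G) (P P' : Place k L),
  (∀ z : L, z ≠ 0 → (∀ c ∈ C, ρ c z = z) → P.ord z = 0 → P'.ord z = 0) →
  ∃ c ∈ C, ∀ z : L, z ≠ 0 → P'.ord z = P.ord (ρ c z)

/-- QU1: the quotient cover.  If `g` fixes a place `Q` of `E` with `t` finite, take `P` above `Q` (`EXS`): `P` and `g P` lie above
`Q`, so `c g` fixes `P` for some `c ∈ C` (`TRV`), `c g = 1`.  (`L / E` is Galois with group `C`.) -/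
def S_QU1 : Prop := ∀ (k L G : Type) [Field k] [IsAlgClosed k] [Field L] [Algebra k L] [Group G]
  [Finite G] (ρ : G →* (L ≃ₐ[k] L)) (t : L) (C : Subgroup G) [C.Normal], IsCover ρ t →
  ∃ (E : IntermediateField k L) (ρ' : G ⧸ C →* (E ≃ₐ[k] E)) (t' : E),
    (∀ z : L, z ∈ E ↔ ∀ c ∈ C, ρ c z = z) ∧ (t' : L) = t ∧
    (∀ (g : G) (z : E), ((ρ' (g : G ⧸ C) z : E) : L) = ρ g z) ∧ IsCover ρ' t'

/-- QU2: its conductor, `C` of order prime to `p`, `c ≠ 0`.  `e Q.ord = P.ord` on `E` (`RSP`), `e = |C ∩ ram 0|` (`TOT`, `RMX`), prime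
to `p`; for `g ∈ ram 1`, `g ≠ 1`, and `z ∈ E` with `Q.ord z = 1`: `P.ord (g z - z) = e + P.b g` (`LO2`), so `Q.b = P.b / e`; the inertia
group of `Q` is the image of `ram P ρ 0` (`TRV`), of order `|ram 0| / e`; `ram Q ρ' i` is the image of `ram P ρ (e i)`, `i ≥ 1`;
the sum of the `|ram Q ρ' i|` is `1 / e` times that for `P` -/
def S_QU2 : Prop := ∀ (p : ℕ) (k L G : Type) [Field k] [Field L] [Algebra k L] [Group G] [Finite G]
  (ρ : G →* (L ≃ₐ[k] L)) (t : L) (C : Subgroup G) [C.Normal] (P : Place k L) (c : ℚ)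
  (E : IntermediateField k L) (ρ' : G ⧸ C →* (E ≃ₐ[k] E)), p.Prime → CharP k p →
  ¬ p ∣ Nat.card C → IsCover ρ t → (∀ z : L, z ∈ E ↔ ∀ c ∈ C, ρ c z = z) →
  (∀ (g : G) (z : E), ((ρ' (g : G ⧸ C) z : E) : L) = ρ g z) → IsConductor P ρ c → c ≠ 0 →
  ∃ (Q : Place k E) (e : ℕ), 1 ≤ e ∧ (∀ z : E, z ≠ 0 → (e : ℤ) * Q.ord z = P.ord (z : L)) ∧
    IsConductor Q ρ' c

/-- QUO: from `QU1`, `QU2` -/
def S_QUO : Prop := ∀ (p : ℕ) (k G : Type) [Field k] [IsAlgClosed k] [Group G] [Finite G]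
  (C : Subgroup G) [C.Normal] (c : ℚ), p.Prime → CharP k p → ¬ p ∣ Nat.card C →
  c ∈ Cond k G → c ≠ 0 → c ∈ Cond k (G ⧸ C)

/-- ALL: no exceptions: `N_G c` is an integer for every conductor `c` (`PUN`) -/
def S_ALL : Prop := ∀ (p : ℕ) (k G : Type) [Field k] [Group G] [Finite G] (c : ℚ), p.Prime →
  CharP k p → c ∈ Cond k G → ∃ z : ℤ, (NG k G : ℚ) * c = z

/-- NQD: from `QUO`, `ALL`, `NGD` (`1 ≤ NG`: `UPA` with `A = ⊥`) -/
def S_NQD : Prop := ∀ (p : ℕ) (k G : Type) [Field k] [IsAlgClosed k] [Group G] [Finite G]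
  (C : Subgroup G) [C.Normal], p.Prime → CharP k p → ¬ p ∣ Nat.card C →
  NG k G ∣ NG k (G ⧸ C)

end Pool.CND
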